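import Pool.Agent.Helper31.LW.Goals
import Mathlib

/-!
# Project LW (MP_6fb600_gt), packet CHF
-/

set_option autoImplicit false

open MeasureTheory Set
open scoped ENNReal Matrix
open Pool.Agent.Helper47.AQ Pool.Agent.Helper31.LQ Pool.Agent.Helper31.LW

namespace Pool.Agent.Helper57.LW

theorem gen {α β γ : Type*} [MeasurableSpace α] [MeasurableSpace β] [MeasurableSpace γ]
    (f : α → β → γ) (h : Measurable fun p : α × β => f p.1 p.2) (x : α) :
    Measurable fun b : β => f x b := by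
  have h2 : Measurable fun b : β => ((x, b) : α × β) := measurable_prodMk_left
  exact h.comp h2

theorem stepV {e m : ℕ} (K : Set (Fin (e + 1 + m) → ℝ)) (Z : Fin m → Fin e → ℝ)
    (h : Measurable fun p : (Fin m → Fin e → ℝ) × (Fin m → ℝ) => vN K p.1 p.2) :
    Measurable fun b : Fin m → ℝ => vN K Z b := gen (fun Z b => vN K Z b) h Z

theorem stepA {e m : ℕ} (hGAM : GAM) (K : Set (Fin (e + 1 + m) → ℝ)) (Z : Fin m → Fin e → ℝ)
    (b : Fin m → ℝ) (hp : 0 < vN K Z b)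
    (hvol : volume (lin (ch (top b Z)) '' K) = ENNReal.ofReal (vN K Z b)) :
    fK (e + 1) K (ch (top b Z)) =
      ENNReal.ofReal (((e + m).factorial : ℝ)⁻¹) * ∫⁻ r in Ioi (0 : ℝ),
        ENNReal.ofReal (r ^ (e + m)) * ENNReal.ofReal (Real.exp (-(r * vN K Z b))) := by
  have h2 := hGAM (e + m) (vN K Z b) hp
  have h3 : fK (e + 1) K (ch (top b Z)) = (ENNReal.ofReal (vN K Z b) ^ (e + 1 + m))⁻¹ := by
    unfold fK
    rw [hvol]
  have h4 : e + 1 + m = e + m + 1 := by omega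
  rw [h3, ← h2]
  exact congrArg (fun k : ℕ => (ENNReal.ofReal (vN K Z b) ^ k)⁻¹) h4

theorem stepB {e m : ℕ} (hGAM : GAM) (K : Set (Fin (e + 1 + m) → ℝ)) (Z : Fin m → Fin e → ℝ)
    (hpos : ∀ b : Fin m → ℝ, 0 < vN K Z b ∧
      volume (lin (ch (top b Z)) '' K) = ENNReal.ofReal (vN K Z b))
    (hv : Measurable fun b : Fin m → ℝ => vN K Z b) :
    ∫⁻ b : Fin m → ℝ, fK (e + 1) K (ch (top b Z)) =
      ENNReal.ofReal (((e + m).factorial : ℝ)⁻¹) * ∫⁻ r in Ioi (0 : ℝ),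
        ENNReal.ofReal (r ^ (e + m)) * Ps K Z r := by
  have h1 : ∫⁻ b : Fin m → ℝ, fK (e + 1) K (ch (top b Z)) = ∫⁻ b : Fin m → ℝ,
      ENNReal.ofReal (((e + m).factorial : ℝ)⁻¹) * ∫⁻ r in Ioi (0 : ℝ),
        ENNReal.ofReal (r ^ (e + m)) * ENNReal.ofReal (Real.exp (-(r * vN K Z b))) :=
    lintegral_congr fun b => stepA hGAM K Z b (hpos b).1 (hpos b).2
  rw [h1, lintegral_const_mul' _ _ ENNReal.ofReal_ne_top]
  congr 1
  rw [lintegral_lintegral_swap]
  · refine lintegral_congr fun r => ?_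
    rw [lintegral_const_mul' _ _ ENNReal.ofReal_ne_top]
    rfl
  · have ha : Measurable fun p : (Fin m → ℝ) × ℝ => ENNReal.ofReal (p.2 ^ (e + m)) :=
      ENNReal.measurable_ofReal.comp (measurable_snd.pow_const (e + m))
    have hb : Measurable fun p : (Fin m → ℝ) × ℝ => vN K Z p.1 := hv.comp measurable_fst
    have hs : Measurable fun p : (Fin m → ℝ) × ℝ => p.2 := measurable_snd
    have hd : Measurable fun p : (Fin m → ℝ) × ℝ =>
        ENNReal.ofReal (Real.exp (-(p.2 * vN K Z p.1))) :=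
      ENNReal.measurable_ofReal.comp (Real.measurable_exp.comp (hs.mul hb).neg)
    exact (ha.mul hd).aemeasurable

/-- packet CHF -/
theorem gCHF (hCHART : CHART) (hSPL : SPL) (hVPOS : VPOS) (hGAM : GAM) (hFKH : FKH) : CHF := by
  intro e m
  obtain ⟨c, hc0, hct, hc⟩ := hCHART (e + 1) m (by omega)
  obtain ⟨hpos, htop, hch, hvN⟩ := hVPOS e m
  have hfac : (0 : ℝ) < ((e + m).factorial : ℝ)⁻¹ :=
    inv_pos.2 (Nat.cast_pos.2 (Nat.factorial_pos (e + m)))
  refine ⟨c * ENNReal.ofReal (((e + m).factorial : ℝ)⁻¹),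
    ENNReal.mul_pos hc0.ne' (ENNReal.ofReal_pos.2 hfac).ne',
    ENNReal.mul_lt_top hct ENNReal.ofReal_lt_top, ?_⟩
  intro K hK
  have hf := hFKH (e + 1 + m) (e + 1) K hK.comp
  have e1 := hc (fK (e + 1) K) hf.1 hf.2
  have e2 := hSPL e m (fun Z => fK (e + 1) K (ch Z)) (hf.1.comp hch)
  have e3 : ∀ Z : Fin m → Fin e → ℝ, ∫⁻ b : Fin m → ℝ, fK (e + 1) K (ch (top b Z)) =
      ENNReal.ofReal (((e + m).factorial : ℝ)⁻¹) * ∫⁻ r in Ioi (0 : ℝ),
        ENNReal.ofReal (r ^ (e + m)) * Ps K Z r := fun Z =>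
    stepB hGAM K Z (fun b => hpos K hK Z b) (stepV K Z (hvN K hK.comp))
  rw [e1, e2, mul_assoc]
  refine congrArg (fun t => c * t) ?_
  rw [← lintegral_const_mul' _ _ ENNReal.ofReal_ne_top]
  exact lintegral_congr e3

end Pool.Agent.Helper57.LW
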